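import Mathlib

/-!
# A finite check: graphs with five vertices and six edges

An edge is a number below `32` whose binary digits are the indicator function of its end points.
-/

namespace Helper77.TDG.Chk

def pc (m : ℕ) : ℕ :=
  (m.testBit 0).toNat + (m.testBit 1).toNat + (m.testBit 2).toNat + (m.testBit 3).toNat +
    (m.testBit 4).toNat

def sd (d m : ℕ) : ℕ := d &&& (31 ^^^ m)

def pairMasks : List ℕ := [3, 5, 9, 17, 6, 10, 18, 12, 20, 24]

def gn (L : List ℕ) (d m : ℕ) : ℕ :=
  pc (m &&& d) + (L.filter fun u => !(u &&& d == 0) && ((u &&& d) &&& m == u &&& d)).length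

def wg (L : List ℕ) : Bool :=
  L.any fun v => decide (4 ≤ gn L 31 v) ||
    L.all fun u => (u &&& sd 31 v == 0) || decide (3 ≤ gn L (sd 31 v) u) ||
      L.any fun w => !(w &&& sd (sd 31 v) u == 0) && decide (5 ≤ gn L (sd (sd 31 v) u) w)

def vl (F : List ℕ) (x : ℕ) : ℕ :=
  12 * (F.filter fun m => m.testBit x).length +
    15 * ([0, 1, 2, 3, 4].filter fun y =>
      (F.any fun m => m.testBit y) && F.all fun m => !m.testBit y || m.testBit x).length

def thr (F : List ℕ) : Bool := [0, 1, 2, 3, 4].any fun x => decide (57 ≤ vl F x)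

def dg (L : List ℕ) : Bool :=
  (L.all fun e => thr (L.filter fun m => !(m == e))) &&
    (thr L || [0, 1, 2, 3, 4].any fun w =>
      decide (3 ≤ (L.filter fun m => m.testBit w).length) &&
        thr (L.filter fun m => !m.testBit w) &&
          L.all fun e => e.testBit w ||
            thr ((L.filter fun m => !m.testBit w).filter fun m => !(m == e)))

def deg (L : List ℕ) : Bool :=
  [0, 1, 2, 3, 4].all fun x => decide (2 ≤ (L.filter fun m => m.testBit x).length)

def subl : ℕ → List ℕ → List (List ℕ)
  | 0, _ => [[]]
  | _ + 1, [] => []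
  | n + 1, a :: l => (subl n l).map (a :: ·) ++ subl (n + 1) l

lemma mem_subl : ∀ (l : List ℕ) (L : List ℕ), L.Sublist l → L ∈ subl L.length l
  | [], L, h => by
    have h1 := List.sublist_nil.1 h
    subst h1
    simp [subl]
  | a :: l, [], _ => by simp [subl]
  | a :: l, b :: L, h => by
    rw [List.length_cons, subl, List.mem_append, List.mem_map]
    cases h with
    | cons _ h' => exact Or.inr (mem_subl l (b :: L) h')
    | cons_cons _ h' => exact Or.inl ⟨L, mem_subl l L h', rfl⟩

def good (L : List ℕ) : Bool := !deg L || wg L || dg L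

set_option maxRecDepth 100000 in
theorem all_good : ((subl 6 pairMasks).all good) = true := by decide

end Helper77.TDG.Chk
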