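import Mathlib
import Pool.Agent.Helper77_TDG2.Defs

/-!
# Small fresh components with a double edge have a good opening
-/

set_option linter.unusedSectionVars false

namespace Helper77.TDG

open Finset Classical

variable {V X : Type*} [Fintype V] [DecidableEq V] [DecidableEq X]

lemma WG_of_double {N : V → Finset X} {C : Finset X} (hC : Fresh N C) {u v : V}
    (hu : u ∈ alive N C) (hv : v ∈ alive N C) (huv : u ≠ v) (h : N u ∩ C = N v ∩ C) :
    WG N C := by
  have hv' : (N v ∩ C).Nonempty := mem_alive.1 hv
  refine ⟨v, hv', Or.inl ?_⟩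
  have h1 : (N v ∩ C).card = 2 := hC.2.1 v hv'
  have h2 : ({u, v} : Finset V) ⊆ dying N C v := by
    intro w hw
    rw [mem_insert, mem_singleton] at hw
    rcases hw with rfl | rfl
    · exact mem_filter.2 ⟨hu, h ▸ inter_subset_left⟩
    · exact mem_filter.2 ⟨hv, inter_subset_left⟩
  have h3 := card_le_card h2
  rw [card_pair huv] at h3
  unfold gain
  omega

theorem small_double (N : V → Finset X) (C : Finset X) (hC : Fresh N C)
    (h : C.card = 2 ∧ (alive N C).card = 3 ∨ C.card = 4 ∧ (alive N C).card = 7) : WG N C := by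
  have hcard : (C.powersetCard 2).card < (alive N C).card := by
    rw [card_powersetCard]
    rcases h with ⟨h1, h2⟩ | ⟨h1, h2⟩ <;> rw [h1, h2] <;> decide
  have hmap : ∀ v ∈ alive N C, N v ∩ C ∈ C.powersetCard 2 := fun v hv =>
    mem_powersetCard.2 ⟨inter_subset_right, hC.2.1 v (mem_alive.1 hv)⟩
  obtain ⟨u, hu, v, hv, huv, he⟩ := exists_ne_map_eq_of_card_lt_of_maps_to hcard hmap
  exact WG_of_double hC hu hv huv he

end Helper77.TDG
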