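import Mathlib
import Pool.Agent.Helper77_TDG2.Defs
import Pool.Agent.Helper63_TDG2.SmallDouble
import Pool.Agent.Helper63_TDG2.Check

/-!
# Fresh components with five targets and six players
-/

set_option linter.unusedSectionVars false

namespace Helper77.TDG

open Finset Classical

variable {V X : Type*} [Fintype V] [DecidableEq V] [DecidableEq X]

namespace Chk

lemma testBit_big {a j : ℕ} (ha : a < 32) (hj : 5 ≤ j) : a.testBit j = false := by
  apply Nat.testBit_lt_two_pow
  calc a < 32 := ha
    _ = 2 ^ 5 := by norm_num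
    _ ≤ 2 ^ j := Nat.pow_le_pow_right (by norm_num) hj

lemma bits_ext {a b : ℕ} (ha : a < 32) (hb : b < 32)
    (h : ∀ j : Fin 5, a.testBit j = b.testBit j) : a = b := by
  apply Nat.eq_of_testBit_eq
  intro i
  by_cases hi : i < 5
  · exact h ⟨i, hi⟩
  · rw [testBit_big ha (by omega), testBit_big hb (by omega)]

lemma testBit_31 (j : Fin 5) : (31 : ℕ).testBit j = true := by
  fin_cases j <;> decide

lemma land_lt {a : ℕ} (b : ℕ) (ha : a < 32) : a &&& b < 32 :=
  lt_of_le_of_lt Nat.and_le_left ha

lemma cnt (p : ℕ → Bool) :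
    ((univ : Finset (Fin 5)).filter fun j : Fin 5 => p (j : ℕ) = true).card
      = ([0, 1, 2, 3, 4].filter p).length := by
  rw [card_filter, Fin.sum_univ_five]
  simp only [Fin.val_zero, Fin.val_one, Fin.val_two, show ((3 : Fin 5) : ℕ) = 3 from rfl,
    show ((4 : Fin 5) : ℕ) = 4 from rfl]
  rcases Bool.eq_false_or_eq_true (p 0) with h0 | h0 <;>
  rcases Bool.eq_false_or_eq_true (p 1) with h1 | h1 <;>
  rcases Bool.eq_false_or_eq_true (p 2) with h2 | h2 <;>
  rcases Bool.eq_false_or_eq_true (p 3) with h3 | h3 <;>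
  rcases Bool.eq_false_or_eq_true (p 4) with h4 | h4 <;>
  simp [List.filter, h0, h1, h2, h3, h4]

end Chk

open Chk

/-- The data of an enumeration of `C`. -/
structure Enum (C : Finset X) where
  c : Fin 5 → X
  inj : Function.Injective c
  mem : ∀ x, x ∈ C ↔ ∃ j, c j = x

noncomputable def Enum.code {C : Finset X} (e : Enum C) (S : Finset X) : ℕ :=
  Nat.ofBits fun j : Fin 5 => decide (e.c j ∈ S)

section

variable {N : V → Finset X} {C : Finset X} (e : Enum C)

lemma Enum.code_lt (S : Finset X) : e.code S < 32 := Nat.ofBits_lt_two_pow _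

lemma Enum.testBit_code (S : Finset X) (j : Fin 5) :
    (e.code S).testBit j = decide (e.c j ∈ S) :=
  Nat.testBit_ofBits_lt _ _ j.2

lemma Enum.c_mem (j : Fin 5) : e.c j ∈ C := (e.mem _).2 ⟨j, rfl⟩

lemma Enum.code_inter (S D : Finset X) : e.code (S ∩ D) = e.code S &&& e.code D := by
  apply bits_ext (e.code_lt _) (land_lt _ (e.code_lt _))
  intro j
  rw [Nat.testBit_land, e.testBit_code, e.testBit_code, e.testBit_code]
  simp [mem_inter]

lemma Enum.code_C : e.code C = 31 := by
  apply bits_ext (e.code_lt _) (by norm_num)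
  intro j
  rw [e.testBit_code, testBit_31]
  simp [e.c_mem j]

lemma Enum.code_sdiff (S D : Finset X) : e.code (D \ S) = sd (e.code D) (e.code S) := by
  apply bits_ext (e.code_lt _) (land_lt _ (e.code_lt _))
  intro j
  rw [Nat.testBit_land, Nat.testBit_xor, testBit_31, e.testBit_code, e.testBit_code,
    e.testBit_code]
  by_cases h1 : e.c j ∈ D <;> by_cases h2 : e.c j ∈ S <;> simp [h1, h2]

lemma Enum.code_zero {D : Finset X} (hD : D ⊆ C) : e.code D = 0 ↔ D = ∅ := by
  constructor
  · intro h
    rw [eq_empty_iff_forall_notMem]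
    intro x hx
    obtain ⟨j, rfl⟩ := (e.mem x).1 (hD hx)
    have h1 := e.testBit_code D j
    rw [h, Nat.zero_testBit] at h1
    simp [hx] at h1
  · rintro rfl
    apply bits_ext (e.code_lt _) (by norm_num)
    intro j
    rw [e.testBit_code]
    simp

lemma Enum.code_nonempty {D : Finset X} (hD : D ⊆ C) : D.Nonempty ↔ ¬ e.code D = 0 := by
  rw [e.code_zero hD, nonempty_iff_ne_empty]

lemma Enum.code_subset {D S : Finset X} (hD : D ⊆ C) :
    D ⊆ S ↔ e.code D &&& e.code S = e.code D := by
  rw [← e.code_inter]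
  constructor
  · intro h
    rw [inter_eq_left.2 h]
  · intro h x hx
    obtain ⟨j, rfl⟩ := (e.mem x).1 (hD hx)
    have h1 := e.testBit_code (D ∩ S) j
    rw [h, e.testBit_code] at h1
    simp only [hx, mem_inter, true_and, decide_true] at h1
    exact of_decide_eq_true h1.symm

lemma Enum.card_eq {D : Finset X} (hD : D ⊆ C) : D.card = pc (e.code D) := by
  have h1 : D = ((univ : Finset (Fin 5)).filter
      fun j : Fin 5 => (e.code D).testBit (j : ℕ) = true).image e.c := by
    ext x
    rw [mem_image]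
    constructor
    · intro hx
      obtain ⟨j, rfl⟩ := (e.mem x).1 (hD hx)
      exact ⟨j, by rw [mem_filter, e.testBit_code]; simp [hx], rfl⟩
    · rintro ⟨j, hj, rfl⟩
      rw [mem_filter, e.testBit_code] at hj
      exact of_decide_eq_true hj.2
  have h2 : D.card = ((univ : Finset (Fin 5)).filter
      fun j : Fin 5 => (e.code D).testBit (j : ℕ) = true).card := by
    conv_lhs => rw [h1]
    exact card_image_of_injective _ e.inj
  rw [h2, card_filter, Fin.sum_univ_five]
  unfold pc
  simp only [Fin.val_zero, Fin.val_one, Fin.val_two, show ((3 : Fin 5) : ℕ) = 3 from rfl,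
    show ((4 : Fin 5) : ℕ) = 4 from rfl]
  rcases Bool.eq_false_or_eq_true ((e.code D).testBit 0) with h0 | h0 <;>
  rcases Bool.eq_false_or_eq_true ((e.code D).testBit 1) with h1 | h1 <;>
  rcases Bool.eq_false_or_eq_true ((e.code D).testBit 2) with h2 | h2 <;>
  rcases Bool.eq_false_or_eq_true ((e.code D).testBit 3) with h3 | h3 <;>
  rcases Bool.eq_false_or_eq_true ((e.code D).testBit 4) with h4 | h4 <;>
  simp [h0, h1, h2, h3, h4]

/-- The list of edges. -/
noncomputable def edges (N : V → Finset X) (e : Enum C) : List ℕ :=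
  pairMasks.filter fun m => decide (∃ v ∈ alive N C, e.code (N v ∩ C) = m)

lemma mem_pairMasks : ∀ m < 32, pc m = 2 → m ∈ pairMasks := by decide

lemma code_mem_pairMasks (hC : Fresh N C) {v : V} (hv : v ∈ alive N C) :
    e.code (N v ∩ C) ∈ pairMasks := by
  apply mem_pairMasks _ (e.code_lt _)
  rw [← e.card_eq inter_subset_right]
  exact hC.2.1 v (mem_alive.1 hv)

lemma mem_edges (hC : Fresh N C) {m : ℕ} :
    m ∈ edges N e ↔ ∃ v ∈ alive N C, e.code (N v ∩ C) = m := by
  unfold edges
  rw [List.mem_filter, decide_eq_true_iff]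
  constructor
  · exact fun h => h.2
  · rintro ⟨v, hv, rfl⟩
    exact ⟨code_mem_pairMasks e hC hv, v, hv, rfl⟩

lemma edges_nodup : (edges N e).Nodup := List.Nodup.filter _ (by decide)

lemma code_injOn (hC : Fresh N C) (hW : ¬ WG N C) :
    Set.InjOn (fun v => e.code (N v ∩ C)) (alive N C : Set V) := by
  intro u hu v hv h
  by_contra huv
  apply hW
  refine WG_of_double hC hu hv huv ?_
  have h' : e.code (N u ∩ C) = e.code (N v ∩ C) := h
  apply Subset.antisymm
  · rw [e.code_subset inter_subset_right, h']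
    exact Nat.and_self _
  · rw [e.code_subset inter_subset_right, h']
    exact Nat.and_self _

/-- Counting through the code. -/
lemma count_eq (hC : Fresh N C) (hW : ¬ WG N C) {F : Finset V} {F' : List ℕ}
    (hFa : F ⊆ alive N C) (hnd : F'.Nodup) (hsub : ∀ m ∈ F', m ∈ edges N e)
    (hF : ∀ v ∈ alive N C, v ∈ F ↔ e.code (N v ∩ C) ∈ F') (P : V → Prop) [DecidablePred P]
    (q : ℕ → Bool) (hPq : ∀ v ∈ F, P v ↔ q (e.code (N v ∩ C)) = true) :
    (F.filter P).card = (F'.filter q).length := by
  have hinj := code_injOn e hC hW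
  have h1 : (F.filter P).image (fun v => e.code (N v ∩ C)) = (F'.filter q).toFinset := by
    ext m
    rw [mem_image, List.mem_toFinset, List.mem_filter]
    constructor
    · rintro ⟨v, hv, rfl⟩
      rw [mem_filter] at hv
      exact ⟨(hF v (hFa hv.1)).1 hv.1, (hPq v hv.1).1 hv.2⟩
    · rintro ⟨h2, h3⟩
      obtain ⟨v, hv, rfl⟩ := (mem_edges e hC).1 (hsub m h2)
      have hvF := (hF v hv).2 h2
      exact ⟨v, mem_filter.2 ⟨hvF, (hPq v hvF).2 h3⟩, rfl⟩
  have h2 := card_image_of_injOn (s := F.filter P) (f := fun v => e.code (N v ∩ C))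
    (hinj.mono (by
      intro v hv
      exact hFa (mem_filter.1 hv).1))
  rw [← h2, h1, List.toFinset_card_of_nodup (hnd.filter _)]

lemma code_inter_C (u : V) {D : Finset X} (hD : D ⊆ C) :
    e.code (N u ∩ D) = e.code (N u ∩ C) &&& e.code D := by
  rw [← e.code_inter, inter_assoc, inter_eq_right.2 hD]

lemma gain_eq (hC : Fresh N C) (hW : ¬ WG N C) {D : Finset X} (hD : D ⊆ C) (v : V) :
    gain N D v = gn (edges N e) (e.code D) (e.code (N v ∩ C)) := by
  unfold gain gn
  congr 1
  · rw [e.card_eq (inter_subset_right.trans hD), code_inter_C e v hD]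
  · have h1 : dying N D v = (alive N C).filter
        fun u => (N u ∩ D).Nonempty ∧ N u ∩ D ⊆ N v := by
      ext u
      unfold dying
      rw [mem_filter, mem_filter, mem_alive, mem_alive]
      constructor
      · rintro ⟨h2, h3⟩
        exact ⟨h2.mono (inter_subset_inter_left hD), h2, h3⟩
      · rintro ⟨_, h2, h3⟩
        exact ⟨h2, h3⟩
    rw [h1]
    apply count_eq e hC hW (Subset.refl _) (edges_nodup e) (fun m hm => hm)
    · intro u hu
      exact ⟨fun _ => (mem_edges e hC).2 ⟨u, hu, rfl⟩, fun _ => hu⟩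
    · intro u _
      have hDu : N u ∩ D ⊆ C := inter_subset_right.trans hD
      have h3 : N u ∩ D ⊆ N v ↔ N u ∩ D ⊆ N v ∩ C :=
        ⟨fun h => subset_inter h hDu, fun h => h.trans inter_subset_left⟩
      rw [e.code_nonempty hDu, h3, e.code_subset hDu, code_inter_C e u hD]
      simp [beq_iff_eq]

lemma WG_of_wg (hC : Fresh N C) (hW : ¬ WG N C) (h : wg (edges N e) = true) : WG N C := by
  unfold wg at h
  rw [List.any_eq_true] at h
  obtain ⟨m, hm, h⟩ := h
  obtain ⟨v, hv, rfl⟩ := (mem_edges e hC).1 hm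
  refine ⟨v, mem_alive.1 hv, ?_⟩
  rw [Bool.or_eq_true, decide_eq_true_iff] at h
  rcases h with h | h
  · left
    rw [gain_eq e hC hW (Subset.refl _), e.code_C]
    exact h
  · right
    have hcode : e.code (C \ N v) = sd 31 (e.code (N v ∩ C)) := by
      rw [← e.code_C, ← e.code_sdiff]
      congr 1
      ext x
      simp only [mem_sdiff, mem_inter, not_and]
      constructor
      · exact fun h => ⟨h.1, fun h1 => absurd h1 h.2⟩
      · exact fun h => ⟨h.1, fun h1 => h.2 h1 h.1⟩
    intro u hu hgu
    rw [List.all_eq_true] at h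
    have huC : u ∈ alive N C := mem_alive.2 (hu.mono (inter_subset_inter_left sdiff_subset))
    have h1 := h _ ((mem_edges e hC).2 ⟨u, huC, rfl⟩)
    rw [Bool.or_eq_true, Bool.or_eq_true, decide_eq_true_iff, beq_iff_eq] at h1
    rw [gain_eq e hC hW sdiff_subset, hcode] at hgu
    have hDu : N u ∩ (C \ N v) ⊆ C := inter_subset_right.trans sdiff_subset
    rw [e.code_nonempty hDu, code_inter_C e u sdiff_subset, hcode] at hu
    rcases h1 with (h1 | h1) | h1
    · exact absurd h1 hu
    · omega
    · rw [List.any_eq_true] at h1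
      obtain ⟨m', hm', h2⟩ := h1
      obtain ⟨w, hw, rfl⟩ := (mem_edges e hC).1 hm'
      rw [Bool.and_eq_true, decide_eq_true_iff] at h2
      have hD2 : (C \ N v) \ N u ⊆ C := sdiff_subset.trans sdiff_subset
      have hcode2 : e.code ((C \ N v) \ N u)
          = sd (sd 31 (e.code (N v ∩ C))) (e.code (N u ∩ C)) := by
        rw [← hcode, ← e.code_sdiff]
        congr 1
        ext x
        simp only [mem_sdiff, mem_inter, not_and]
        constructor
        · exact fun h => ⟨h.1, fun h1 => absurd h1 h.2⟩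
        · exact fun h => ⟨h.1, fun h1 => h.2 h1 h.1.1⟩
      refine ⟨w, ?_, ?_⟩
      · rw [e.code_nonempty (inter_subset_right.trans hD2), code_inter_C e w hD2, hcode2]
        have h3 := h2.1
        simpa using h3
      · rw [gain_eq e hC hW hD2, hcode2]
        exact h2.2

/-- Membership of a vertex in an edge. -/
lemma mem_cov {v : V} {j : Fin 5} :
    v ∈ cov N (e.c j) ↔ (e.code (N v ∩ C)).testBit j = true := by
  unfold cov
  rw [mem_filter, e.testBit_code, decide_eq_true_iff, mem_inter]
  simp [e.c_mem j]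

lemma val_eq (hC : Fresh N C) (hW : ¬ WG N C) {F : Finset V} {F' : List ℕ}
    (hFa : F ⊆ alive N C) (hnd : F'.Nodup) (hsub : ∀ m ∈ F', m ∈ edges N e)
    (hF : ∀ v ∈ alive N C, v ∈ F ↔ e.code (N v ∩ C) ∈ F') (x : Fin 5) :
    val (cov N) C F (e.c x) = vl F' x := by
  unfold val vl
  congr 2
  · have h1 : cov N (e.c x) ∩ F = F.filter fun v => v ∈ cov N (e.c x) := by
      ext v
      rw [mem_inter, mem_filter, and_comm]
    rw [h1]
    exact count_eq e hC hW hFa hnd hsub hF (fun v => v ∈ cov N (e.c x)) (fun m => m.testBit x)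
      (fun v _ => mem_cov e)
  · rw [← cnt]
    have h1 : (C.filter fun u => (cov N u ∩ F).Nonempty ∧ cov N u ∩ F ⊆ cov N (e.c x))
        = ((univ : Finset (Fin 5)).filter fun j : Fin 5 => ((F'.any fun m => m.testBit (j : ℕ)) &&
          F'.all fun m => !m.testBit (j : ℕ) || m.testBit (x : ℕ)) = true).image e.c := by
      ext u
      rw [mem_filter, mem_image]
      have key : ∀ j : Fin 5, ((cov N (e.c j) ∩ F).Nonempty ∧
          cov N (e.c j) ∩ F ⊆ cov N (e.c x)) ↔ ((F'.any fun m => m.testBit j) &&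
          F'.all fun m => !m.testBit j || m.testBit x) = true := by
        intro j
        rw [Bool.and_eq_true, List.any_eq_true, List.all_eq_true]
        constructor
        · rintro ⟨⟨v, hv⟩, h2⟩
          rw [mem_inter] at hv
          refine ⟨⟨_, (hF v (hFa hv.2)).1 hv.2, (mem_cov e).1 hv.1⟩, ?_⟩
          intro m hm
          obtain ⟨w, hw, rfl⟩ := (mem_edges e hC).1 (hsub m hm)
          have hwF := (hF w hw).2 hm
          by_cases hb : (e.code (N w ∩ C)).testBit j = true
          · have h3 := (mem_cov e).1 (h2 (mem_inter.2 ⟨(mem_cov e).2 hb, hwF⟩))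
            simp [h3]
          · simp [Bool.eq_false_iff.2 hb]
        · rintro ⟨⟨m, hm, hb⟩, h2⟩
          obtain ⟨w, hw, rfl⟩ := (mem_edges e hC).1 (hsub m hm)
          refine ⟨⟨w, mem_inter.2 ⟨(mem_cov e).2 hb, (hF w hw).2 hm⟩⟩, ?_⟩
          intro v hv
          rw [mem_inter] at hv
          have h3 := h2 _ ((hF v (hFa hv.2)).1 hv.2)
          rw [(mem_cov e).1 hv.1] at h3
          simp only [Bool.not_true, Bool.false_or] at h3
          exact (mem_cov e).2 h3
      constructor
      · rintro ⟨hu, h2⟩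
        obtain ⟨j, rfl⟩ := (e.mem u).1 hu
        exact ⟨j, mem_filter.2 ⟨mem_univ _, (key j).1 h2⟩, rfl⟩
      · rintro ⟨j, hj, rfl⟩
        exact ⟨e.c_mem j, (key j).2 (mem_filter.1 hj).2⟩
    rw [h1, card_image_of_injective _ e.inj]

lemma threat_of_thr (hC : Fresh N C) (hW : ¬ WG N C) {F : Finset V} {F' : List ℕ}
    (hFa : F ⊆ alive N C) (hnd : F'.Nodup) (hsub : ∀ m ∈ F', m ∈ edges N e)
    (hF : ∀ v ∈ alive N C, v ∈ F ↔ e.code (N v ∩ C) ∈ F') (h : thr F' = true) :
    Threat (cov N) C 6 F := by
  unfold thr at h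
  rw [List.any_eq_true] at h
  obtain ⟨x, hx, h⟩ := h
  have hx5 : x < 5 := by
    simp only [List.mem_cons, List.not_mem_nil, or_false] at hx
    omega
  rw [decide_eq_true_iff] at h
  refine ⟨e.c ⟨x, hx5⟩, e.c_mem _, ?_⟩
  rw [val_eq e hC hW hFa hnd hsub hF]
  exact h

lemma dualGood_of_dg (hC : Fresh N C) (hW : ¬ WG N C) (h : dg (edges N e) = true) :
    DualGood (cov N) C (alive N C) 6 := by
  unfold dg at h
  rw [Bool.and_eq_true, List.all_eq_true, Bool.or_eq_true, List.any_eq_true] at h
  obtain ⟨h1, h2⟩ := h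
  have hnd := edges_nodup (N := N) e
  have hinj := code_injOn e hC hW
  constructor
  · intro v hv
    refine threat_of_thr e hC hW (erase_subset _ _) (hnd.filter _)
      (fun m hm => (List.mem_filter.1 hm).1) ?_ (h1 _ ((mem_edges e hC).2 ⟨v, hv, rfl⟩))
    intro w hw
    rw [mem_erase, List.mem_filter]
    constructor
    · rintro ⟨h3, _⟩
      refine ⟨(mem_edges e hC).2 ⟨w, hw, rfl⟩, ?_⟩
      simp only [Bool.not_eq_true', beq_eq_false_iff_ne]
      exact fun h4 => h3 (hinj hw hv h4)
    · rintro ⟨_, h3⟩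
      simp only [Bool.not_eq_true', beq_eq_false_iff_ne] at h3
      exact ⟨fun h4 => h3 (by rw [h4]), hw⟩
  · rcases h2 with h2 | ⟨x, hx, h2⟩
    · left
      exact threat_of_thr e hC hW (Subset.refl _) hnd (fun m hm => hm)
        (fun w hw => ⟨fun _ => (mem_edges e hC).2 ⟨w, hw, rfl⟩, fun _ => hw⟩) h2
    · right
      have hx5 : x < 5 := by
        simp only [List.mem_cons, List.not_mem_nil, or_false] at hx
        omega
      rw [Bool.and_eq_true, Bool.and_eq_true, decide_eq_true_iff, List.all_eq_true] at h2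
      obtain ⟨⟨h3, h4⟩, h5⟩ := h2
      have hmem : ∀ v ∈ alive N C, v ∈ alive N C \ cov N (e.c ⟨x, hx5⟩) ↔
          e.code (N v ∩ C) ∈ (edges N e).filter fun m => !m.testBit x := by
        intro v hv
        rw [mem_sdiff, mem_cov e, List.mem_filter]
        constructor
        · rintro ⟨_, h6⟩
          refine ⟨(mem_edges e hC).2 ⟨v, hv, rfl⟩, ?_⟩
          simpa using h6
        · rintro ⟨_, h6⟩
          refine ⟨hv, ?_⟩
          simpa using h6
      refine ⟨e.c ⟨x, hx5⟩, e.c_mem _, ?_, ?_, ?_⟩
      · have h6 : cov N (e.c ⟨x, hx5⟩) ∩ alive N C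
            = (alive N C).filter fun v => v ∈ cov N (e.c ⟨x, hx5⟩) := by
          ext v
          rw [mem_inter, mem_filter, and_comm]
        have h7 := count_eq e hC hW (Subset.refl (alive N C)) hnd (fun m hm => hm)
          (fun w hw => ⟨fun _ => (mem_edges e hC).2 ⟨w, hw, rfl⟩, fun _ => hw⟩)
          (fun v => v ∈ cov N (e.c ⟨x, hx5⟩)) (fun m => m.testBit x) (fun v _ => mem_cov e)
        rw [h6, h7]
        exact h3
      · exact threat_of_thr e hC hW sdiff_subset (hnd.filter _)
          (fun m hm => (List.mem_filter.1 hm).1) hmem h4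
      · intro v hv
        have hvC : v ∈ alive N C := (mem_sdiff.1 hv).1
        have h6 := h5 _ ((mem_edges e hC).2 ⟨v, hvC, rfl⟩)
        have h7 := (List.mem_filter.1 ((hmem v hvC).1 hv)).2
        rw [Bool.or_eq_true] at h6
        have h8 : thr (((edges N e).filter fun m => !m.testBit x).filter
            fun m => !(m == e.code (N v ∩ C))) = true := by
          rcases h6 with h6 | h6
          · rw [h6] at h7
            exact absurd h7 (by decide)
          · exact h6
        refine threat_of_thr e hC hW ((erase_subset _ _).trans sdiff_subset)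
          ((hnd.filter _).filter _)
          (fun m hm => (List.mem_filter.1 (List.mem_filter.1 hm).1).1) ?_ h8
        intro w hw
        rw [mem_erase, hmem w hw, List.mem_filter (p := fun m => !(m == e.code (N v ∩ C)))]
        constructor
        · rintro ⟨h9, h10⟩
          refine ⟨h10, ?_⟩
          simp only [Bool.not_eq_true', beq_eq_false_iff_ne]
          exact fun h11 => h9 (hinj hw hvC h11)
        · rintro ⟨h9, h10⟩
          simp only [Bool.not_eq_true', beq_eq_false_iff_ne] at h10
          exact ⟨fun h11 => h10 (by rw [h11]), h9⟩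

theorem class56 (N : V → Finset X) (C : Finset X) (hC : Fresh N C)
    (hN : ∀ x, 2 ≤ (univ.filter fun v => x ∈ N v).card) (h5 : C.card = 5)
    (h6 : (alive N C).card = 6) (hW : ¬ WG N C) : DualGood (cov N) C (alive N C) 6 := by
  let eq := C.equivFinOfCardEq h5
  let e : Enum C := ⟨fun j => (eq.symm j : X),
    fun a b h => eq.symm.injective (Subtype.ext h),
    fun x => ⟨fun hx => ⟨eq ⟨x, hx⟩, by simp⟩, by
      rintro ⟨j, rfl⟩
      exact (eq.symm j).2⟩⟩
  have hnd := edges_nodup (N := N) e
  have hlen : (edges N e).length = 6 := by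
    have h1 := count_eq e hC hW (Subset.refl (alive N C)) hnd (fun m hm => hm)
      (fun w hw => ⟨fun _ => (mem_edges e hC).2 ⟨w, hw, rfl⟩, fun _ => hw⟩)
      (fun _ => True) (fun _ => true) (fun v _ => by simp)
    simp only [filter_true, List.filter_true] at h1
    omega
  have hmem : edges N e ∈ subl 6 pairMasks := by
    rw [← hlen]
    exact mem_subl _ _ List.filter_sublist
  have hgood : good (edges N e) = true := List.all_eq_true.1 all_good _ hmem
  have hdeg : deg (edges N e) = true := by
    unfold deg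
    rw [List.all_eq_true]
    intro x hx
    have hx5 : x < 5 := by
      simp only [List.mem_cons, List.not_mem_nil, or_false] at hx
      omega
    rw [decide_eq_true_iff]
    have h1 := count_eq e hC hW (Subset.refl (alive N C)) hnd (fun m hm => hm)
      (fun w hw => ⟨fun _ => (mem_edges e hC).2 ⟨w, hw, rfl⟩, fun _ => hw⟩)
      (fun v => v ∈ cov N (e.c ⟨x, hx5⟩)) (fun m => m.testBit x) (fun v _ => mem_cov e)
    rw [← h1]
    refine (hN (e.c ⟨x, hx5⟩)).trans (card_le_card ?_)
    intro v hv
    rw [mem_filter] at hv ⊢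
    refine ⟨mem_alive.2 ⟨_, mem_inter.2 ⟨hv.2, e.c_mem _⟩⟩, ?_⟩
    unfold cov
    rw [mem_filter]
    exact ⟨mem_univ _, hv.2⟩
  unfold good at hgood
  rw [hdeg] at hgood
  simp only [Bool.not_true, Bool.false_or, Bool.or_eq_true] at hgood
  rcases hgood with h | h
  · exact absurd (WG_of_wg e hC hW h) hW
  · exact dualGood_of_dg e hC hW h

end

end Helper77.TDG
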